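import Mathlib

namespace Pool.Agent.H.MP_2e038a_an

open Filter Topology

variable {𝕜 X : Type} [RCLike 𝕜] [NormedAddCommGroup X] [NormedSpace 𝕜 X]

def PS (T : X ≃L[𝕜] X) : Prop :=
  ∀ ε > 0, ∃ δ > 0, ∀ x : ℤ → X, (∀ j, ‖T (x j) - x (j + 1)‖ < δ) →
    (∃ q : ℕ, 0 < q ∧ ∀ j, x (j + q) = x j) →
    ∃ y, (∃ m : ℕ, 0 < m ∧ (T ^ m) y = y) ∧ ∀ j : ℤ, ‖x j - (T ^ j) y‖ < ε

structure Sp (T : X ≃L[𝕜] X) (ψ : X →ₗ[𝕜] ℤ → 𝕜) (g : ℤ → ℝ) : Prop where
  pos : ∀ j, 0 < g j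
  sh : ∀ x j, ψ (T x) (j + 1) = ψ x j
  le : ∀ x j, ‖ψ x j‖ * g j ≤ ‖x‖
  lat : ∀ x y (c : ℝ) (k : ℤ), 0 ≤ c →
    (∀ j, ‖ψ x (j + k)‖ * g (j + k) ≤ c * (‖ψ y j‖ * g j)) → ‖x‖ ≤ c * ‖y‖
  proj : ∀ x (A : Set ℤ), ∃ y, ψ y = A.indicator (ψ x)
  sing : ∀ j, ∃ e, ψ e = Pi.single j 1 ∧ ‖e‖ = g j

def UE (g : ℤ → ℝ) : Prop := ∃ N : ℕ, ∀ j, 4 * g j ≤ g (j + N) ∨ 4 * g j ≤ g (j - N)

def Pk (g : ℤ → ℝ) : Prop := (∃ N : ℕ, 0 < N ∧ ∀ j, 0 ≤ j → 4 * g (j + N) ≤ g j) ∧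
  ∃ N : ℕ, 0 < N ∧ ∀ j, j < 0 → 4 * g (j - N) ≤ g j

variable {T : X ≃L[𝕜] X} {ψ : X →ₗ[𝕜] ℤ → 𝕜} {g : ℤ → ℝ}

lemma zp (a b : ℤ) (x : X) : (T ^ (a + b)) x = (T ^ a) ((T ^ b) x) := by rw [zpow_add]; rfl

lemma z0 (x : X) : (T ^ (0 : ℤ)) x = x := rfl

lemma z1 (a : ℤ) (x : X) : (T ^ (a + 1)) x = T ((T ^ a) x) := by rw [add_comm, zp, zpow_one]

lemma Sp.shk (h : Sp T ψ g) (k : ℤ) (x : X) (j : ℤ) : ψ ((T ^ k) x) (j + k) = ψ x j := by
  induction k with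
  | zero => rw [z0, add_zero]
  | succ k ih => rw [z1, ← add_assoc, h.sh, ih]
  | pred k ih => rw [← ih, ← h.sh, ← z1, sub_add_cancel, add_assoc, sub_add_cancel]

lemma Sp.mono (h : Sp T ψ g) {x y : X} (H : ∀ j, ‖ψ x j‖ ≤ ‖ψ y j‖) : ‖x‖ ≤ ‖y‖ := by
  simpa using h.lat x y 1 0 zero_le_one fun j => by
    simpa using mul_le_mul_of_nonneg_right (H j) (h.pos j).le

lemma per {E : Type} {x : ℤ → E} {q : ℕ} (hq : 0 < q) (h : ∀ j, x (j + q) = x j) (f : E → ℝ) :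
    ∃ i, ∀ j, f (x j) ≤ f (x i) := by
  obtain ⟨i, -, hi⟩ := (Finset.Ico (0 : ℤ) q).exists_max_image (fun j => f (x j))
    ⟨0, by simpa using hq⟩
  refine ⟨i, fun j => ?_⟩
  have : x (j % q) = x j := by
    rw [Int.emod_def, mul_comm]; exact Function.Periodic.sub_int_mul_eq h _
  exact this ▸ hi _ (Finset.mem_Ico.2 ⟨Int.emod_nonneg _ (by omega), Int.emod_lt_of_pos _ (by omega)⟩)

lemma wrap (N : ℕ) : ∃ r : ℤ → ℤ, (∀ i, r (i + (2 * N + 1 : ℕ)) = r i) ∧ (∀ i, |r i| ≤ N) ∧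
    (∀ i : ℤ, |i| ≤ N → r i = i) ∧ ∀ i, r (i + 1) = r i + 1 ∨ r i = N ∧ r (i + 1) = -N := by
  have a := fun i : ℤ => Int.emod_nonneg (i + N) (b := 2 * N + 1) (by omega)
  have b := fun i : ℤ => Int.emod_lt_of_pos (i + N) (b := 2 * N + 1) (by omega)
  refine ⟨fun i => (i + N) % (2 * N + 1) - N, fun i => ?_, fun i => ?_, fun i hi => ?_, fun i => ?_⟩
  · push_cast
    rw [add_right_comm, Int.add_emod_right]
  · have := a i; have := b i
    rw [abs_le]; constructor <;> simp only <;> omega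
  · rw [abs_le] at hi
    simp only
    rw [Int.emod_eq_of_lt (by omega) (by omega)]; ring
  · have := a i; have := b i
    simp only
    rw [add_right_comm, ← Int.emod_add_emod]
    by_cases h : (i + N) % (2 * N + 1) = 2 * N
    · right; rw [h, Int.emod_self]; omega
    · left; rw [Int.emod_eq_of_lt (by omega) (by omega)]; ring

lemma core (h : Sp T ψ g) (hP : PS T) (ok : ℤ → ℕ → Prop) {C : ℝ} (C0 : 0 ≤ C)
    (hC : ∀ j N, ok j N → ∀ t, 0 ≤ t → (∀ i : ℤ, N < |i| → t * g (j + i) ≤ 1) → ∀ i, t * g i ≤ C) :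
    ∃ N : ℕ, 0 < N ∧ ∀ j, ok j N → 4 * g j ≤ g (j + N) ∨ 4 * g j ≤ g (j - N) := by
  obtain ⟨δ, d0, H⟩ := hP 1 one_pos
  obtain ⟨η, e0, e1⟩ : ∃ η, 0 < η ∧ η * (C + 2) < δ :=
    ⟨δ / (C + 3), by positivity, by rw [div_mul_eq_mul_div, div_lt_iff₀ (by positivity)]; nlinarith⟩
  obtain ⟨θ, t0, t1, t2⟩ : ∃ θ : ℝ, 0 < θ ∧ θ < 1 ∧ θ * (1 + η) = 1 :=
    ⟨(1 + η)⁻¹, by positivity, inv_lt_one_of_one_lt₀ (by linarith), by field_simp⟩
  obtain ⟨M, M0, hM⟩ : ∃ M, 0 ≤ M ∧ ∀ x, ‖T x‖ ≤ M * ‖x‖ :=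
    ⟨_, norm_nonneg _, (T : X →L[𝕜] X).le_opNorm⟩
  obtain ⟨N, N0, hN⟩ := ((eventually_gt_atTop 0).and ((tendsto_pow_atTop_nhds_zero_of_lt_one t0.le
    t1).eventually_lt_const (u := η / (4 * (M + 1))) (by positivity))).exists
  rw [lt_div_iff₀ (by positivity)] at hN
  refine ⟨N, N0, fun j hj => ?_⟩
  by_contra! hc
  obtain ⟨r, r1, r2, r3, r4⟩ := wrap N
  obtain ⟨e, he, -⟩ := h.sing j
  have n : ∀ k : ℤ, ‖(T ^ k) e‖ ≤ g (j + k) := fun k => by
    obtain ⟨e', h1, h2⟩ := h.sing (j + k)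
    refine h2 ▸ h.mono fun i => le_of_eq ?_
    obtain ⟨i, rfl⟩ : ∃ l, i = l + k := ⟨i - k, by ring⟩
    rw [h.shk, he, h1]; simp [Pi.single_apply]
  obtain ⟨i, hi⟩ := per (x := r) (by omega) r1 fun k => θ ^ k.natAbs * g (j + k)
  obtain ⟨B, hB⟩ : ∃ B, B = θ ^ (r i).natAbs * g (j + r i) := ⟨_, rfl⟩
  rw [← hB] at hi
  have g0 : g j ≤ B := by simpa [r3 0 (by simp)] using hi 0
  have B0 := (h.pos j).trans_le g0
  obtain ⟨s, s0, s1⟩ : ∃ s, 0 < s ∧ s * B = C + 2 := ⟨(C + 2) / B, by positivity, by field_simp⟩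
  obtain ⟨y, -, hy⟩ := H (fun i => ((s * θ ^ (r i).natAbs : ℝ) : 𝕜) • (T ^ r i) e) (fun i => by
    refine lt_of_le_of_lt ?_ e1
    rw [map_smul, ← z1, ← s1]
    rcases r4 i with k | ⟨k1, k2⟩
    · have a := hi (i + 1)
      rw [k] at a ⊢
      rw [← sub_smul, norm_smul, ← RCLike.ofReal_sub, RCLike.norm_ofReal, ← mul_sub, abs_mul,
        abs_of_pos s0]
      have b : |θ ^ (r i).natAbs - θ ^ (r i + 1).natAbs| ≤ η * θ ^ (r i + 1).natAbs := by
        rcases (by omega : (r i).natAbs = (r i + 1).natAbs + 1 ∨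
          (r i + 1).natAbs = (r i).natAbs + 1) with u | u <;> rw [u, pow_succ, abs_le]
        · have := pow_pos t0 (r i + 1).natAbs
          have : 1 - θ ≤ η := by nlinarith
          constructor <;> nlinarith
        · have := pow_pos t0 (r i).natAbs
          have : θ ^ (r i).natAbs * (θ * (1 + η)) = θ ^ (r i).natAbs := by rw [t2, mul_one]
          constructor <;> nlinarith [mul_pos e0 t0]
      calc _ ≤ s * (η * θ ^ (r i + 1).natAbs) * g (j + (r i + 1)) := by gcongr; exact n _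
        _ = η * (s * (θ ^ (r i + 1).natAbs * g (j + (r i + 1)))) := by ring
        _ ≤ _ := by gcongr
    · rw [k1, k2, Int.natAbs_neg, Int.natAbs_natCast, ← smul_sub, norm_smul, RCLike.norm_ofReal,
        abs_of_pos (by positivity), z1]
      have a1 := (n N).trans (hc.1.le.trans (mul_le_mul_of_nonneg_left g0 (by norm_num)))
      have a2 := (n (-N)).trans (hc.2.le.trans (mul_le_mul_of_nonneg_left g0 (by norm_num)))
      have a3 := (hM _).trans (mul_le_mul_of_nonneg_left a1 M0)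
      calc _ ≤ s * θ ^ N * (M * (4 * B) + 4 * B) := by
            gcongr; exact (norm_sub_le _ _).trans (add_le_add a3 a2)
        _ = θ ^ N * (4 * (M + 1)) * (s * B) := by ring
        _ ≤ _ := by gcongr) ⟨2 * N + 1, by omega, fun i => by simp only [r1]⟩
  have u : ∀ i, ‖((s * θ ^ (r i).natAbs : ℝ) : 𝕜) * (Pi.single j 1 : ℤ → 𝕜) (j + i - r i) - ψ y j‖ *
      g (j + i) ≤ 1 := fun i => by
    have := (h.le _ (j + i)).trans (hy i).le
    rwa [map_sub, map_smul, Pi.sub_apply, h.shk, Pi.smul_apply, smul_eq_mul,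
      ← sub_add_cancel (j + i) (r i), h.shk, sub_add_cancel, he] at this
  have v := hC j N hj _ (norm_nonneg (ψ y j)) (fun i hi => by
    have := u i
    rwa [Pi.single_eq_of_ne (by have := r2 i; intro a; rw [show r i = i by omega] at this; omega),
      mul_zero, zero_sub, norm_neg] at this) (j + r i)
  have := u (r i)
  rw [r3 _ (r2 i), add_sub_cancel_right, Pi.single_eq_same, mul_one] at this
  have w := mul_le_mul_of_nonneg_right (norm_sub_norm_le ((s * θ ^ (r i).natAbs : ℝ) : 𝕜) (ψ y j))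
    (h.pos (j + r i)).le
  rw [RCLike.norm_ofReal, abs_of_pos (by positivity), sub_mul, mul_assoc, ← hB] at w
  linarith

lemma grow {f : ℕ → ℝ} {B : ℝ} (hB : ∀ k, f k ≤ B) (h0 : 0 < f 0) (h1 : 4 * f 0 ≤ f 1)
    (h : ∀ k, 4 * f (k + 1) ≤ f (k + 2) ∨ 4 * f (k + 1) ≤ f k) : False := by
  have a : ∀ k, 4 ^ k * f 0 ≤ f k ∧ 4 * f k ≤ f (k + 1) := fun k => by
    induction k with
    | zero => simpa using h1
    | succ k ih =>
      have : 0 < 4 ^ k * f 0 := by positivity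
      exact ⟨by rw [pow_succ]; linarith [ih.1, ih.2],
        (h k).resolve_right (by linarith [ih.1, ih.2])⟩
  obtain ⟨k, hk⟩ := pow_unbounded_of_one_lt (B / f 0) (by norm_num : (1 : ℝ) < 4)
  rw [div_lt_iff₀ h0] at hk
  linarith [(a k).1, hB k]

lemma fwd (h : Sp T ψ g) (hP : PS T) : UE g ∨ Pk g := by
  by_cases hb : ∃ B, ∀ j, g j ≤ B
  · obtain ⟨B, hB⟩ := hb
    have B0 := (h.pos 0).trans_le (hB 0)
    have c : ∀ a : ℤ, ∃ N : ℕ, 0 < N ∧ ∀ j, N < |a - j| →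
        4 * g j ≤ g (j + N) ∨ 4 * g j ≤ g (j - N) := fun a =>
      core h hP _ (C := B / g a) (div_pos B0 (h.pos a)).le fun j N hj t t0 ht i => by
        have := ht _ hj
        rw [add_sub_cancel] at this
        rw [le_div_iff₀ (h.pos a), mul_right_comm]
        exact (mul_le_mul this (hB i) (h.pos i).le zero_le_one).trans_eq (one_mul _)
    refine .inr ⟨(c (-1)).imp fun N ⟨N0, hN⟩ => ⟨N0, fun j hj => ?_⟩,
      (c 0).imp fun N ⟨N0, hN⟩ => ⟨N0, fun j hj => ?_⟩⟩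
    · have a : ∀ k : ℕ, (N : ℤ) < |-1 - (j + (k + 1) * N)| := fun k =>
        lt_abs.2 (.inr (by nlinarith [mul_nonneg k.cast_nonneg (N.cast_nonneg (α := ℤ))]))
      by_contra hc
      refine grow (f := fun k => g (j + (k + 1) * N)) (fun _ => hB _) (h.pos _) ?_ fun k => ?_
      · have := hN _ (a 0)
        simp only [Nat.cast_zero, zero_add, one_mul, add_sub_cancel_right] at this ⊢
        convert this.resolve_right hc using 2; push_cast; ring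
      · convert hN _ (a (k + 1)) using 3 <;> push_cast <;> ring
    · have a : ∀ k : ℕ, (N : ℤ) < |0 - (j - (k + 1) * N)| := fun k =>
        lt_abs.2 (.inl (by nlinarith [mul_nonneg k.cast_nonneg (N.cast_nonneg (α := ℤ))]))
      by_contra hc
      refine grow (f := fun k => g (j - (k + 1) * N)) (fun _ => hB _) (h.pos _) ?_ fun k => ?_
      · have := hN _ (a 0)
        simp only [Nat.cast_zero, zero_add, one_mul, sub_add_cancel] at this ⊢
        convert this.resolve_left hc using 2; push_cast; ring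
      · convert (hN _ (a (k + 1))).symm using 3 <;> push_cast <;> ring
  · obtain ⟨N, -, hN⟩ := core h hP (fun _ _ => True) le_rfl fun j N _ t t0 ht i => by
      by_contra! hc
      have t1 : 0 < t := (pos_iff_pos_of_mul_pos hc).2 (h.pos i)
      obtain ⟨B, hB⟩ := ((Finset.Icc (-N : ℤ) N).image fun i => g (j + i)).bddAbove
      refine hb ⟨max B t⁻¹, fun k => ?_⟩
      by_cases hk : N < |k - j|
      · have := ht _ hk
        rw [add_sub_cancel] at this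
        exact le_max_of_le_right (by rwa [← mul_one t⁻¹, le_inv_mul_iff₀ t1])
      · refine le_max_of_le_left (hB ?_)
        simp only [Finset.coe_image, Finset.coe_Icc]
        exact ⟨k - j, abs_le.1 (not_lt.1 hk), by simp⟩
    exact .inl ⟨N, fun j => hN j trivial⟩

lemma drift (T : X ≃L[𝕜] X) (N : ℕ) : ∃ C, 0 ≤ C ∧ ∀ (x : ℤ → X) (δ : ℝ),
    (∀ j, ‖T (x j) - x (j + 1)‖ ≤ δ) → ∀ j, ‖(T ^ (N : ℤ)) (x j) - x (j + N)‖ ≤ C * δ := by
  induction N with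
  | zero => exact ⟨0, le_rfl, fun x δ _ j => by rw [Nat.cast_zero, z0]; simp⟩
  | succ N ih =>
    obtain ⟨C, C0, hC⟩ := ih
    refine ⟨‖(T : X →L[𝕜] X)‖ * C + 1, by positivity, fun x δ h j => ?_⟩
    have := (T : X →L[𝕜] X).le_of_opNorm_le_of_le le_rfl (hC x δ h j)
    rw [Nat.cast_succ, z1, ← sub_add_sub_cancel _ (T (x (j + N))), ← map_sub, ← add_assoc, add_mul,
      one_mul, mul_assoc]
    exact (norm_add_le _ _).trans (add_le_add this (h _))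

lemma bwd1 (h : Sp T ψ g) (hU : UE g) : PS T := by
  obtain ⟨N, hN⟩ := hU
  have key : ∀ x, 4 * ‖x‖ ≤ ‖(T ^ (N : ℤ)) x‖ + ‖(T ^ (-N : ℤ)) x‖ := fun x => by
    obtain ⟨y, hy⟩ := h.proj x {j | 4 * g j ≤ g (j + N)}
    have a := h.lat y ((T ^ (N : ℤ)) x) (1 / 4) (-N) (by norm_num) fun j => by
      obtain ⟨j, rfl⟩ : ∃ l, j = l + N := ⟨j - N, by ring⟩
      have := norm_nonneg (ψ x j)
      have := h.pos (j + N)
      rw [h.shk, add_neg_cancel_right, hy, Set.indicator_apply]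
      split_ifs with k
      · nlinarith [show 4 * g j ≤ g (j + N) from k]
      · rw [norm_zero, zero_mul]; positivity
    have b := h.lat (x - y) ((T ^ (-N : ℤ)) x) (1 / 4) N (by norm_num) fun j => by
      obtain ⟨j, rfl⟩ : ∃ l, j = l + -N := ⟨j + N, by ring⟩
      have := norm_nonneg (ψ x j)
      have := h.pos (j + -N)
      rw [h.shk, neg_add_cancel_right, map_sub, Pi.sub_apply, hy, Set.indicator_apply]
      split_ifs with k
      · rw [sub_self, norm_zero, zero_mul]; positivity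
      · rw [sub_zero, ← sub_eq_add_neg]; nlinarith [(hN j).resolve_left k]
    have := norm_add_le y (x - y)
    rw [add_sub_cancel] at this
    linarith
  obtain ⟨C, C0, hC⟩ := drift T N
  obtain ⟨M, M0, hM⟩ : ∃ M, 0 ≤ M ∧ ∀ x, ‖(T ^ (-N : ℤ)) x‖ ≤ M * ‖x‖ :=
    ⟨_, norm_nonneg _, ((T ^ (-N : ℤ) : X ≃L[𝕜] X) : X →L[𝕜] X).le_opNorm⟩
  intro ε e0
  refine ⟨ε / (C + M * C + 1), by positivity, fun x hx ⟨q, q0, hq⟩ =>
    ⟨0, ⟨1, one_pos, map_zero _⟩, fun j => ?_⟩⟩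
  obtain ⟨i, hi⟩ := per q0 hq norm
  have d := hC x _ fun j => (hx j).le
  have e : ε / (C + M * C + 1) * (C + M * C + 1) = ε := by field_simp
  have p : 0 < ε / (C + M * C + 1) := by positivity
  generalize ε / (C + M * C + 1) = δ at *
  have a := (norm_sub_norm_le _ _).trans (d i)
  have b := (hM _).trans (mul_le_mul_of_nonneg_left (d (i - N)) M0)
  rw [map_sub, ← zp, neg_add_cancel, z0, sub_add_cancel, norm_sub_rev] at b
  have := (norm_sub_norm_le _ _).trans b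
  have := mul_nonneg (add_nonneg C0 (mul_nonneg M0 C0)) p.le
  rw [map_zero, sub_zero]
  nlinarith [key (x i), hi (i + N), hi (i - N), hi j]

lemma dec {M : ℝ} (hM : 1 ≤ M) {N : ℕ} (hN : 0 < N) : ∃ a : ℕ → ℝ, Summable a ∧ (∀ k, 0 ≤ a k) ∧
    ∀ f : ℕ → ℝ, 0 ≤ f 0 → (∀ k, f (k + 1) ≤ M * f k) → (∀ k, 4 * f (k + N) ≤ f k) →
      ∀ k, f k ≤ a k * f 0 := by
  obtain ⟨ρ, r0, r1, r2⟩ : ∃ ρ : ℝ, 0 < ρ ∧ ρ < 1 ∧ ρ ^ N = 1 / 4 :=
    ⟨(1 / 4) ^ (N : ℝ)⁻¹, by positivity, Real.rpow_lt_one (by norm_num) (by norm_num)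
      (by positivity), Real.rpow_inv_natCast_pow (by norm_num) hN.ne'⟩
  refine ⟨fun k => 4 * M ^ N * ρ ^ k, (summable_geometric_of_lt_one r0.le r1).mul_left _,
    fun k => by positivity, fun f f0 f1 f2 k => ?_⟩
  have a : ∀ k, f k ≤ M ^ k * f 0 := fun k => by
    induction k with
    | zero => simp
    | succ k ih => rw [pow_succ', mul_assoc]; exact (f1 k).trans (by gcongr)
  induction k using Nat.strong_induction_on with
  | _ k ih =>
    rcases lt_or_ge k N with u | u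
    · have := pow_le_pow_of_le_one r0.le r1.le u.le
      have := pow_le_pow_right₀ hM u.le
      refine (a k).trans (mul_le_mul_of_nonneg_right ?_ f0)
      nlinarith [pow_pos (one_pos.trans_le hM) N]
    · obtain ⟨k, rfl⟩ := Nat.exists_eq_add_of_le' u
      have := ih k (by omega)
      simp only [pow_add, r2] at this ⊢
      linarith [f2 k]

lemma bwd2 [CompleteSpace X] (h : Sp T ψ g) {M : ℝ} (hM : 1 ≤ M) (m1 : ∀ j, g (j + 1) ≤ M * g j)
    (m2 : ∀ j, g j ≤ M * g (j + 1)) (hU : Pk g) : PS T := by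
  obtain ⟨⟨N, N0, hN⟩, N', N0', hN'⟩ := hU
  obtain ⟨a, a1, a0, a2⟩ := dec hM N0
  obtain ⟨b, b1, b0, b2⟩ := dec hM N0'
  choose P hP using fun x => h.proj x (Set.Ici 0)
  have p1 : ∀ (k : ℕ) x, ‖(T ^ (k : ℤ)) (P x)‖ ≤ a k * ‖x‖ := fun k x =>
    h.lat _ _ _ k (a0 k) fun j => by
      have := h.pos j
      have := a0 k
      rw [h.shk, hP, Set.indicator_apply]
      split_ifs with u
      · have := a2 (fun k => g (j + k)) (h.pos _).le
          (fun k => by simpa [add_assoc] using m1 (j + k))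
          (fun k => by simpa [add_assoc] using hN (j + k) (by have : 0 ≤ j := u; omega)) k
        rw [mul_left_comm]
        exact mul_le_mul_of_nonneg_left (by simpa using this) (norm_nonneg _)
      · rw [norm_zero, zero_mul]; positivity
  have p2 : ∀ (k : ℕ) x, ‖(T ^ (-k : ℤ)) (x - P x)‖ ≤ b k * ‖x‖ := fun k x =>
    h.lat _ _ _ (-k) (b0 k) fun j => by
      have := h.pos j
      have := b0 k
      rw [h.shk, map_sub, Pi.sub_apply, hP, Set.indicator_apply]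
      split_ifs with u
      · rw [sub_self, norm_zero, zero_mul]; positivity
      · have := b2 (fun k => g (j - k)) (h.pos _).le
          (fun k => by simpa [← sub_sub] using m2 (j - k - 1))
          (fun k => by simpa [sub_sub] using hN' (j - k) (by have : ¬0 ≤ j := u; omega)) k
        rw [mul_left_comm, sub_zero]
        exact mul_le_mul_of_nonneg_left (by simpa [sub_eq_add_neg] using this) (norm_nonneg _)
  have b1' := (summable_nat_add_iff 1).2 b1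
  have A0 : 0 ≤ ∑' k, a k := tsum_nonneg a0
  have B0 : 0 ≤ ∑' k, b (k + 1) := tsum_nonneg fun _ => b0 _
  intro ε e0
  obtain ⟨δ, d0, e⟩ : ∃ δ, 0 < δ ∧ δ * (∑' k, a k + ∑' k, b (k + 1) + 1) = ε :=
    ⟨ε / (∑' k, a k + ∑' k, b (k + 1) + 1), by positivity, by field_simp⟩
  refine ⟨δ, d0, fun x hx ⟨q, q0, hq⟩ => ?_⟩
  obtain ⟨z, hz⟩ : ∃ z : ℤ → X, ∀ j, z j = x (j + 1) - T (x j) := ⟨_, fun _ => rfl⟩
  have zq : ∀ j, z (j + q) = z j := fun j => by rw [hz, hz, add_right_comm, hq, hq]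
  have zl : ∀ j, ‖z j‖ ≤ δ := fun j => by rw [hz, norm_sub_rev]; exact (hx j).le
  have s1 : ∀ i (k : ℕ), ‖(T ^ (k : ℤ)) (P (z (i - k)))‖ ≤ a k * δ := fun i k =>
    (p1 _ _).trans (mul_le_mul_of_nonneg_left (zl _) (a0 _))
  have s2 : ∀ i (k : ℕ), ‖(T ^ (-k : ℤ)) (z (i + k) - P (z (i + k)))‖ ≤ b k * δ := fun i k =>
    (p2 _ _).trans (mul_le_mul_of_nonneg_left (zl _) (b0 _))
  have S1 := fun i => Summable.of_norm_bounded (a1.mul_right δ) (s1 i)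
  have S2 := fun i => Summable.of_norm_bounded (b1.mul_right δ) (s2 i)
  obtain ⟨y, hy⟩ : ∃ y : ℤ → X, ∀ i, y i = ∑' k : ℕ, (T ^ (k : ℤ)) (P (z (i - 1 - k))) -
    ∑' k : ℕ, (T ^ (-(k + 1 : ℕ) : ℤ)) (z (i - 1 + (k + 1 : ℕ)) - P (z (i - 1 + (k + 1 : ℕ)))) :=
    ⟨_, fun _ => rfl⟩
  have y1 : ∀ i, y (i + 1) = T (y i) + z i := fun i => by
    have u := (S1 i).tsum_eq_zero_add
    have v := (S2 i).tsum_eq_zero_add
    rw [hy, hy, map_sub, T.map_tsum, T.map_tsum, add_sub_cancel_right, u]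
    simp only [← z1, Nat.cast_zero, z0, neg_zero, add_zero, sub_zero] at v ⊢
    rw [← sub_eq_iff_eq_add'] at v
    rw [← v]
    simp only [Nat.cast_succ, sub_sub, add_comm (1 : ℤ), neg_add_rev, neg_add_cancel_comm,
      show ∀ k : ℤ, i - 1 + (k + 1) = i + k from fun k => by ring]
    abel
  have y2 : ∀ i, y (i + q) = y i := fun i => by
    simp only [hy, add_sub_right_comm i, add_right_comm _ (q : ℤ), add_sub_right_comm _ (q : ℤ), zq]
  have o : ∀ i : ℤ, (T ^ i) (x 0 - y 0) = x i - y i := fun i => by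
    have st : ∀ i, T (x i - y i) = x (i + 1) - y (i + 1) := fun i => by
      rw [y1, hz, map_sub]; abel
    induction i with
    | zero => rfl
    | succ k ih => rw [z1, ih, st]
    | pred k ih => exact T.injective (by rw [← z1, st, sub_add_cancel, ih])
  refine ⟨x 0 - y 0, ⟨q, q0, by
    rw [← zpow_natCast, o, ← zero_add (q : ℤ), hq, y2]⟩, fun j => ?_⟩
  rw [o, sub_sub_cancel, hy]
  have t1 := tsum_of_norm_bounded (a1.hasSum.mul_right δ) (s1 (j - 1))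
  have t2 := tsum_of_norm_bounded (b1'.hasSum.mul_right δ) fun k => s2 (j - 1) (k + 1)
  exact ((norm_sub_le _ _).trans (add_le_add t1 t2)).trans_lt (by linarith)

lemma iff [CompleteSpace X] (h : Sp T ψ g) {M : ℝ} (hM : 1 ≤ M) (m1 : ∀ j, g (j + 1) ≤ M * g j)
    (m2 : ∀ j, g j ≤ M * g (j + 1)) : PS T ↔ UE g ∨ Pk g :=
  ⟨fwd h, fun H => H.elim (bwd1 h) (bwd2 h hM m1 m2)⟩

structure Sq (ev : X →ₗ[𝕜] ℤ → 𝕜) : Prop where
  le : ∀ x n, ‖ev x n‖ ≤ ‖x‖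
  lat : ∀ x y (c : ℝ) (k : ℤ), 0 ≤ c → (∀ n, ‖ev x (n + k)‖ ≤ c * ‖ev y n‖) → ‖x‖ ≤ c * ‖y‖
  proj : ∀ x (A : Set ℤ), ∃ y, ev y = A.indicator (ev x)
  sing : ∀ n, ∃ e, ev e = Pi.single n 1 ∧ ‖e‖ = 1

lemma Sq.sp {ev : X →ₗ[𝕜] ℤ → 𝕜} (h : Sq ev) {w G : ℤ → 𝕜} (hT : ∀ x n, ev (T x) n = w (n + 1) * ev x (n + 1))
    (G0 : ∀ j, G j ≠ 0) (hG : ∀ j, G (j + 1) = w (-j) * G j) : ∃ ψ, Sp T ψ fun j => ‖G j‖ := by
  have e : ∀ j (a : ℝ), ‖G j‖⁻¹ * a * ‖G j‖ = a := fun j a => by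
    rw [mul_right_comm, inv_mul_cancel₀ (norm_ne_zero_iff.2 (G0 j)), one_mul]
  refine ⟨LinearMap.pi fun j => (G j)⁻¹ • (LinearMap.proj (-j) ∘ₗ ev), fun j => norm_pos_iff.2 (G0 j),
    fun x j => ?_, fun x j => ?_, fun x y c k c0 H => h.lat x y c (-k) c0 fun n => ?_,
    fun x A => ?_, fun j => ?_⟩
  · have := G0 (j + 1)
    have := G0 j
    have : w (-j) ≠ 0 := fun a => by simp [hG, a] at *
    simp [hT, hG]
    field_simp
  · simpa [e] using h.le x (-j)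
  · simpa [e, add_comm] using H (-n)
  · obtain ⟨y, hy⟩ := h.proj x {n | -n ∈ A}
    exact ⟨y, funext fun j => by by_cases a : j ∈ A <;> simp [hy, a]⟩
  · obtain ⟨x, h1, h2⟩ := h.sing (-j)
    refine ⟨G j • x, funext fun i => ?_, by simp [norm_smul, h2]⟩
    by_cases a : i = j <;> simp [h1, a, G0]

lemma Sq.exG {ev : X →ₗ[𝕜] ℤ → 𝕜} (h : Sq ev) {w : ℤ → 𝕜} (w0 : ∀ n, w n ≠ 0)
    (hT : ∀ x n, ev (T x) n = w (n + 1) * ev x (n + 1)) :
    ∃ G : ℤ → 𝕜, (∀ j, G j ≠ 0) ∧ ∀ j, G (j + 1) = w (-j) * G j := by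
  obtain ⟨e, he, -⟩ := h.sing 0
  have a : ∀ j, ev ((T ^ (j + 1)) e) (-(j + 1)) = w (-j) * ev ((T ^ j) e) (-j) := fun j => by
    rw [z1, hT]; simp
  refine ⟨fun j => ev ((T ^ j) e) (-j), fun j => ?_, a⟩
  beta_reduce
  induction j with
  | zero => rw [z0, he]; simp
  | succ k ih => rw [a]; exact mul_ne_zero (w0 _) ih
  | pred k ih =>
    have := a (-k - 1)
    rw [sub_add_cancel] at this
    exact right_ne_zero_of_mul (this ▸ ih)

open scoped ENNReal ZeroAtInfty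

lemma sq1 (p : ℝ≥0∞) [Fact (1 ≤ p)] (hp : p ≠ ⊤) :
    ∃ ev : lp (fun _ : ℤ => 𝕜) p →ₗ[𝕜] ℤ → 𝕜, Sq ev ∧ ∀ x n, ev x n = x n := by
  have p0 : 0 < p := one_pos.trans_le Fact.out
  have p1 := ENNReal.toReal_pos p0.ne' hp
  refine ⟨⟨⟨fun x n => x n, fun _ _ => rfl⟩, fun _ _ => rfl⟩, ⟨lp.norm_apply_le_norm p0.ne',
    fun x y c k c0 H => lp.norm_le_of_tsum_le p1 (by positivity) ?_, fun x A =>
      ⟨⟨A.indicator x, (lp.memℓp x).mono' fun n => norm_indicator_le_norm_self _ _⟩, rfl⟩,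
    fun n => ⟨lp.single p n 1, rfl, by rw [lp.norm_single p0, norm_one]⟩⟩, fun _ _ => rfl⟩
  rw [← (Equiv.addRight k).tsum_eq, Real.mul_rpow c0 (norm_nonneg _)]
  refine hasSum_le (fun n => ?_) ((Equiv.addRight k).summable_iff.2
    ((lp.memℓp x).summable p1)).hasSum ((lp.hasSum_norm p1 y).mul_left _)
  rw [← Real.mul_rpow c0 (norm_nonneg _)]
  exact Real.rpow_le_rpow (norm_nonneg _) (H n) p1.le

lemma sq2 : ∃ ev : C₀(ℤ, 𝕜) →ₗ[𝕜] ℤ → 𝕜, Sq ev ∧ ∀ x n, ev x n = x n := by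
  have le : ∀ (x : C₀(ℤ, 𝕜)) n, ‖x n‖ ≤ ‖x‖ := fun x => x.toBCF.norm_coe_le_norm
  have ge : ∀ (x : C₀(ℤ, 𝕜)) {C}, 0 ≤ C → (∀ n, ‖x n‖ ≤ C) → ‖x‖ ≤ C := fun x C h =>
    (BoundedContinuousFunction.norm_le (f := x.toBCF) h).2
  refine ⟨⟨⟨fun x n => x n, fun _ _ => rfl⟩, fun _ _ => rfl⟩, ⟨le,
    fun x y c k c0 H => ge _ (by positivity) fun n => ?_, fun x A =>
      ⟨⟨⟨A.indicator x, continuous_of_discreteTopology⟩, squeeze_zero_norm
        (fun n => norm_indicator_le_norm_self _ _) (by simpa using (zero_at_infty x).norm)⟩, rfl⟩,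
    fun n => ⟨⟨⟨Pi.single n 1, continuous_of_discreteTopology⟩, ?_⟩, rfl, ?_⟩⟩, fun _ _ => rfl⟩
  · simpa using (H (n - k)).trans (mul_le_mul_of_nonneg_left (le y _) c0)
  · rw [cocompact_eq_cofinite]
    exact tendsto_const_nhds.congr' ((eventually_cofinite_ne n).mono fun i hi => by simp [hi])
  · refine le_antisymm (ge _ zero_le_one fun i => ?_) (le_of_eq_of_le ?_ (le _ n))
    · by_cases a : i = n <;> simp [a]
    · simp

end Pool.Agent.H.MP_2e038a_an
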